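import Pool.Agent.Taut.Defs
import Pool.Agent.Taut.Complete
import Pool.Agent.Taut.NotTaut

/-!
# A taut submanifold of a complete Riemannian manifold with non-taut endpoint sets

`N = ℝ²` with the complete Riemannian metric `dx² + dy² / (1 + x²)`, and `M` is the line `x = 0`.
-/

open MeasureTheory Set Filter Topology
open scoped ContDiff ENNReal

noncomputable section

namespace Pool.Agent.Taut

lemma isProperSubmanifold_axis : IsProperSubmanifold axis 1 := by
  refine ⟨?_, fun q hq => ?_⟩
  · have : axis = (fun x : V 2 => pr 0 x) ⁻¹' {0} := by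
      ext x; simp [axis]
    rw [this]
    exact isClosed_singleton.preimage (pr 0).continuous
  · let L : V 2 →L[ℝ] V 1 := (pr 0).smulRight (EuclideanSpace.single 0 1)
    have hL : ∀ x, L x = 0 ↔ x 0 = 0 := by
      intro x
      simp [L]
    refine ⟨L, L.contDiff, ?_, ?_⟩
    · rw [L.fderiv]
      intro y
      refine ⟨EuclideanSpace.single 0 (y 0), ?_⟩
      ext i
      fin_cases i
      simp [L]
    · filter_upwards with x
      exact (hL x).symm

lemma isConnected_axis : IsConnected axis := by
  have hconv : Convex ℝ axis := by
    intro x hx y hy a b _ _ _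
    have hx' : x 0 = 0 := hx
    have hy' : y 0 = 0 := hy
    show (a • x + b • y) 0 = 0
    simp [hx', hy']
  exact hconv.isConnected ⟨0, rfl⟩

lemma isProperSubmanifold_point (q : V 2) : IsProperSubmanifold {q} 2 := by
  refine ⟨isClosed_singleton, fun q' hq' => ?_⟩
  rw [mem_singleton_iff] at hq'
  subst hq'
  refine ⟨fun x => x - q', contDiff_id.sub contDiff_const, ?_, ?_⟩
  · rw [fderiv_sub_const, fderiv_fun_id]
    exact fun y => ⟨y, rfl⟩
  · filter_upwards with x
    rw [mem_singleton_iff, sub_eq_zero]

lemma criticalSet_axis (p : V 2) : G0.criticalSet p axis = {horiz p} := by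
  ext u
  rw [RMetric.criticalSet, mem_ofPred_eq, mem_singleton_iff]
  constructor
  · exact isCriticalPoint_unique p
  · rintro rfl
    exact isCriticalPoint_horiz p

lemma isCriticalSubmanifold_axis_iff (p : V 2) (Ct : Set (Vel 2)) :
    G0.IsCriticalSubmanifold p axis Ct ↔ Ct = {horiz p} := by
  rw [RMetric.IsCriticalSubmanifold, criticalSet_axis]
  simp only [mem_singleton_iff, exists_eq_left]
  have : connectedComponentIn {horiz p} (horiz p) = {horiz p} := by
    apply subset_antisymm
    · exact connectedComponentIn_subset _ _
    · exact singleton_subset_iff.2 (mem_connectedComponentIn (mem_singleton _))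
  rw [this]

lemma endpointSet_axis (p : V 2) : endpointSet p {horiz p} = {path p (horiz p) 1} := by
  simp [endpointSet]

end Pool.Agent.Taut

open Pool.Agent.Taut in
/-- There are a complete Riemannian metric on `ℝ²` and a taut, connected, properly embedded
submanifold `M` of codimension `1` such that for every point `p` the energy functional `E_p` has a
critical submanifold, and for every critical submanifold `Ct` of `E_p` the set `C` of the endpoints
of the elements of `Ct` is a properly embedded submanifold which is not taut. -/
theorem Pool.Agent.Results.MP_5c6b81_gt.NonTautEndpointSet.result :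
    ∃ (G : RMetric 2) (M : Set (V 2)), G.Complete ∧ IsConnected M ∧ IsProperSubmanifold M 1 ∧
      G.IsTaut M ∧ ∀ p : V 2,
        (∃ Ct : Set (Vel 2), G.IsCriticalSubmanifold p M Ct) ∧
        ∀ Ct : Set (Vel 2), G.IsCriticalSubmanifold p M Ct →
          IsProperSubmanifold (endpointSet p Ct) 2 ∧ ¬ G.IsTaut (endpointSet p Ct) := by
  refine ⟨G0, axis, G0_complete, isConnected_axis, isProperSubmanifold_axis, isTaut_axis, fun p => ?_⟩
  refine ⟨⟨_, (isCriticalSubmanifold_axis_iff p _).2 rfl⟩, fun Ct hCt => ?_⟩
  rw [(isCriticalSubmanifold_axis_iff p _).1 hCt, endpointSet_axis]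
  refine ⟨isProperSubmanifold_point _, not_isTaut_point ?_⟩
  exact horiz_mem p
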